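import Pool.Agent.Y125.XT.Res
import Pool.Agent.Y41.XT.L1
import Pool.Agent.K3h44.RQ.Stm2
import Pool.Agent.R945.RQ.C

/-!
# The class number formula for a real quadratic subfield of a cyclotomic field
-/

set_option autoImplicit false

namespace Pool.Agent.K3h64.RQ.CN1

open NumberField IsCyclotomicExtension.Rat H300.HW NumberField.InfinitePlace NumberField.Units
open Pool.Agent.Y682.XT (Lone lg)

lemma lone_eq {n : ℕ} [NeZero n] (χ : DirichletCharacter ℂ n) (hp : χ.IsPrimitive) (h1 : χ ≠ 1) :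
    Lone χ = DirichletCharacter.LFunction χ 1 := by
  have : NeZero χ.conductor := ⟨χ.conductor_ne_zero⟩
  have h2 := χ.changeLevel_primitiveCharacter
  have h3 : χ.primitiveCharacter ≠ 1 := by
    intro h
    apply h1
    rw [← h2, h, map_one]
  have h4 := DirichletCharacter.LFunction_changeLevel χ.conductor_dvd_level χ.primitiveCharacter
    (s := 1) (Or.inl h3)
  rw [h2, Finset.prod_eq_one, mul_one] at h4
  · exact h4.symm
  · intro p hp'
    rw [Nat.mem_primeFactors] at hp'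
    have hcn : χ.conductor = n := hp
    have : ¬ IsUnit ((p : ℕ) : ZMod χ.conductor) := by
      rw [ZMod.isUnit_iff_coprime, hcn, Nat.Prime.coprime_iff_not_dvd hp'.1, not_not]
      exact hp'.2.1
    rw [MulChar.map_nonunit _ this, zero_mul, sub_zero]

lemma residue {n : ℕ} [NeZero n] {L : Type} [Field L] [NumberField L]
    [IsCyclotomicExtension {n} ℚ L] (F : IntermediateField ℚ L) (χ : DirichletCharacter ℂ n)
    (h2 : Module.finrank ℚ F = 2) (hm : χ ∈ YY n L F) (h1 : χ ≠ 1) :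
    (dedekindZeta_residue F : ℂ) = Lone χ := by
  have : IsGalois ℚ L := IsCyclotomicExtension.isGalois {n} ℚ L
  have hc : Nat.card (YY n L F) = 2 := by
    rw [card_YY, ← IntermediateField.finrank_eq_fixingSubgroup_index, h2]
  obtain ⟨y, hy, hyu⟩ := (Nat.card_eq_two_iff' (1 : YY n L F)).1 hc
  have hu : ∀ ψ : {ψ : DirichletCharacter ℂ n // ψ ∈ YY n L F ∧ ψ ≠ 1}, ψ = ⟨χ, hm, h1⟩ := by
    intro ψ
    have e1 := hyu ⟨ψ.1, ψ.2.1⟩ (fun h => ψ.2.2 (congrArg Subtype.val h))
    have e2 := hyu ⟨χ, hm⟩ (fun h => h1 (congrArg Subtype.val h))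
    apply Subtype.ext
    have e3 : (⟨ψ.1, ψ.2.1⟩ : YY n L F) = ⟨χ, hm⟩ := e1.trans e2.symm
    exact congrArg (fun z : YY n L F => (z : DirichletCharacter ℂ n)) e3
  let _ : Unique {ψ : DirichletCharacter ℂ n // ψ ∈ YY n L F ∧ ψ ≠ 1} := ⟨⟨⟨χ, hm, h1⟩⟩, hu⟩
  rw [Pool.Agent.Y125.XT.s_res n L F, finprod_unique]
  rfl

theorem t_CN1 : Pool.Agent.K3h44.RQ.S_CN1 := by
  classical
  intro n _ L _ _ _ F χ h2 hre hp h1 heven hfix
  have hm : χ ∈ YY n L F := (mem_YY n L F χ).2 hfix
  have hr := residue F χ h2 hm h1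
  rw [lone_eq χ hp h1] at hr
  have hL := Pool.Agent.Y41.XT.s_l1 n χ hp h1 heven
  have hn := congrArg norm hr
  rw [Complex.norm_real, Real.norm_of_nonneg (dedekindZeta_residue_pos F).le] at hn
  rw [← hn, dedekindZeta_residue_def] at hL
  have hreal : ∀ w : InfinitePlace F, w.IsReal := fun w => isReal_iff.2 (hre w.embedding)
  have hc0 : nrComplexPlaces F = 0 := by
    rw [nrComplexPlaces, Fintype.card_eq_zero_iff]
    exact ⟨fun w => not_isReal_iff_isComplex.2 w.2 (hreal w.1)⟩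
  have hr1 : nrRealPlaces F = 2 := by
    have h3 := card_add_two_mul_card_eq_rank F
    rw [hc0, h2, mul_zero, add_zero] at h3
    exact h3
  have ht : torsionOrder F = 2 := by
    obtain ⟨w⟩ : Nonempty (InfinitePlace F) := inferInstance
    exact Pool.Agent.R945.RQ.tors (ComplexEmbedding.IsReal.embedding (hre w.embedding))
  rw [hc0, hr1, ht] at hL
  have hD : 0 < Real.sqrt |(discr F : ℝ)| := by
    apply Real.sqrt_pos_of_pos
    exact abs_pos.2 (Int.cast_ne_zero.2 (discr_ne_zero F))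
  rw [← hL]
  push_cast
  field_simp

end Pool.Agent.K3h64.RQ.CN1
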